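import Pool.Agent.N110.CC.GStm

/-!
Project CC (helper110): hyperplane sections are base point free and movable (helper93).
-/

set_option autoImplicit false

open FF Pool.Agent.W602.GT Pool.Agent.Y172 Pool.Agent.R887
open Pool.Agent.N110 Pool.Agent.N110.PA Pool.Agent.N110.NV Pool.Agent.N492.PA Pool.Agent.N110.CC

namespace Pool.Agent.N93.CC

/-- **(HYP)** -/
theorem leafHYP : S_HYP := by
  classical
  intro K _ _ N n ρ y hy hn h0 c i hi Hy hHe hH
  obtain ⟨D, hD⟩ : ∃ D : Place ℂ K → ℤ, ∀ P, D P = ⌊Hy P⌋ := ⟨fun P => ⌊Hy P⌋, fun _ => rfl⟩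
  have hDord : ∀ P l, IsPrimeDivisor y P → Centred y l P → D P = P.ord (y i / y l) := by
    intro P l hP hl
    rw [hD, hH P l hP hl, Int.floor_intCast]
  have hDH : ∀ P, IsPrimeDivisor y P → Hy P = (D P : ℚ) := by
    intro P hP
    obtain ⟨l, hl⟩ := exists_centred hy P
    rw [hDord P l hP hl, hH P l hP hl]
  have hfin : {P | IsPrimeDivisor y P ∧ D P ≠ 0}.Finite := by
    refine hHe.2.subset ?_
    rintro P ⟨hP, h1⟩
    refine ⟨hP, fun h2 => h1 ?_⟩
    rw [hD, h2, Int.floor_zero]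
  have hsec : ∀ l, y l ≠ 0 → ∀ Q, IsPrimeDivisor y Q → 0 ≤ Q.ord (y l / y i) + D Q := by
    intro l hl Q hQ
    obtain ⟨l', hl'⟩ := exists_centred hy Q
    have h1 := hl'.2 l
    rw [Q.reg_iff (div_ne_zero hl hl'.1), Q.ord_div hl hl'.1] at h1
    rw [hDord Q l' hQ hl', Q.ord_div hl hi, Q.ord_div hi hl'.1]
    linarith
  have hzero : ∀ l P, IsPrimeDivisor y P → Centred y l P → P.ord (y l / y i) + D P = 0 := by
    intro l P hP hl
    rw [hDord P l hP hl, P.ord_div hl.1 hi, P.ord_div hi hl.1]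
    ring
  refine ⟨D, ⟨hfin, fun R hR => ?_⟩, ⟨hfin, fun P hP => ?_⟩, ?_⟩
  · obtain ⟨l, hl⟩ := exists_centred hy R
    exact ⟨y l / y i, div_ne_zero hl.1 hi, hsec l hl.1,
      fun P hP hPR => hzero l P hP (hPR.centred hl)⟩
  · obtain ⟨l, hl⟩ := exists_centred hy P
    exact ⟨y l / y i, div_ne_zero hl.1 hi, hsec l hl.1, hzero l P hP hl⟩
  · have h1 : cls y (cQ c) Hy = ∑ P ∈ hHe.2.toFinset, Hy P • cQ c P := by
      refine cls_finset (fun P hP => ((Set.Finite.mem_toFinset _).1 hP).1) fun P hP h2 => ?_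
      by_contra h3
      exact h2 ((Set.Finite.mem_toFinset _).2 ⟨hP, h3⟩)
    have h2 : divClass y c D = ∑ P ∈ hHe.2.toFinset, (D P : ℝ) • rcl c P := by
      unfold divClass
      refine finsum_mem_eq_sum_of_inter_support_eq _ ?_
      ext P
      constructor
      · rintro ⟨hP, h3⟩
        refine ⟨?_, h3⟩
        rw [Finset.mem_coe, Set.Finite.mem_toFinset]
        refine ⟨hP, fun h4 => h3 ?_⟩
        show (D P : ℝ) • rcl c P = 0
        rw [hD, h4, Int.floor_zero, Int.cast_zero, zero_smul]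
      · rintro ⟨hP, h3⟩
        rw [Finset.mem_coe, Set.Finite.mem_toFinset] at hP
        exact ⟨hP.1, h3⟩
    rw [h1, h2, toR_sum]
    refine Finset.sum_congr rfl fun P hP => ?_
    rw [toR_smul, hDH P ((Set.Finite.mem_toFinset _).1 hP).1, Rat.cast_intCast]
    congr 1

end Pool.Agent.N93.CC
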